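import Pool.Agent.W343.BSD.Euler
import Mathlib

/-!
The Euler product over the prime ideals of a Dedekind domain with finite quotients.
-/

set_option autoImplicit false
set_option maxHeartbeats 1000000

open PowerSeries

namespace Pool.Agent.Y784.ZC

open Pool.Agent.W343.BSD Submodule

section dedekind

variable {R : Type} [CommRing R] [IsDedekindDomain R] [Infinite R]

theorem card_mul (I J : Ideal R) : Nat.card (R ⧸ I * J) = Nat.card (R ⧸ I) * Nat.card (R ⧸ J) := by
  have h := UniqueFactorizationMonoid.multiplicative_of_coprime (α := Ideal R) (β := ℕ) cardQuot I J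
    (cardQuot_bot _ _)
    (fun {I J} hI => by simp [Ideal.isUnit_iff.mp hI, Ideal.mul_top])
    (fun {I} i hI =>
      have : Ideal.IsPrime I := Ideal.isPrime_of_prime hI
      cardQuot_pow_of_prime hI.ne_zero)
    fun {I J} hIJ => cardQuot_mul_of_coprime <| Ideal.isCoprime_iff_sup_eq.mpr
      (Ideal.isUnit_iff.mp
        (hIJ (Ideal.dvd_iff_le.mpr le_sup_left) (Ideal.dvd_iff_le.mpr le_sup_right)))
  exact h

/-- the nonzero prime ideals -/
abbrev Pr (R : Type) [CommRing R] : Type := {p : Ideal R // p.IsPrime ∧ p ≠ ⊥}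

omit [Infinite R] in
theorem Pr.prime (p : Pr R) : Prime p.1 := Ideal.prime_of_isPrime p.2.2 p.2.1

omit [Infinite R] in
theorem Pr.eq_of_dvd {p q : Pr R} (h : p.1 ∣ q.1) : p = q := by
  apply Subtype.ext
  have := p.2.1
  have h1 := q.2.1
  have h2 : q.1 ≤ p.1 := Ideal.dvd_iff_le.1 h
  exact ((h1.isMaximal q.2.2).eq_of_le p.2.1.ne_top h2).symm

variable {q : ℕ} (hq : 1 < q) (h1 : ∀ I : Ideal R, I ≠ ⊥ → ∃ m, Nat.card (R ⧸ I) = q ^ m)
  (h2 : ∀ m, {I : Ideal R | Nat.card (R ⧸ I) = q ^ m}.Finite) {dg : Pr R → ℕ}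
  (hdg : ∀ p : Pr R, Nat.card (R ⧸ p.1) = q ^ dg p)

/-- the ideals of norm `q ^ n` all whose prime divisors are in `A` -/
def SA (q : ℕ) (A : Finset (Pr R)) (n : ℕ) : Set (Ideal R) :=
  {I | Nat.card (R ⧸ I) = q ^ n ∧ ∀ p : Pr R, p.1 ∣ I → p ∈ A}

include h2 in
omit [IsDedekindDomain R] [Infinite R] in
theorem SA_finite (A : Finset (Pr R)) (n : ℕ) : (SA q A n).Finite := (h2 n).subset fun _ h => h.1

include hq in
omit [IsDedekindDomain R] in
theorem ne_bot {I : Ideal R} {n : ℕ} (h : Nat.card (R ⧸ I) = q ^ n) : I ≠ ⊥ := by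
  rintro rfl
  have h3 : Nat.card (R ⧸ (⊥ : Ideal R)) = 0 := cardQuot_bot R R
  rw [h3] at h
  exact pow_ne_zero n (by omega) h.symm

include hq in
theorem SA_empty (n : ℕ) : SA q (∅ : Finset (Pr R)) n = if n = 0 then {⊤} else ∅ := by
  ext I
  have htop : Nat.card (R ⧸ (⊤ : Ideal R)) = 1 := cardQuot_top R R
  constructor
  · rintro ⟨h, hP⟩
    have hI : I = ⊤ := by
      by_contra hne
      obtain ⟨M, hM, hIM⟩ := Ideal.exists_le_maximal I hne
      have hM0 : M ≠ ⊥ := by
        rintro rfl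
        exact ne_bot hq h (le_bot_iff.1 hIM)
      exact absurd (hP ⟨M, hM.isPrime, hM0⟩ (Ideal.dvd_iff_le.2 hIM)) (Finset.notMem_empty _)
    subst hI
    rw [htop] at h
    have hn : n = 0 := by
      by_contra h0
      have := Nat.one_lt_pow h0 hq
      omega
    rw [if_pos hn]
    rfl
  · intro h
    by_cases hn : n = 0
    · rw [if_pos hn, Set.mem_singleton_iff] at h
      subst h
      refine ⟨by rw [htop, hn, pow_zero], fun P hP => ?_⟩
      exact absurd (Ideal.dvd_iff_le.1 hP) (fun h => P.2.1.ne_top (top_le_iff.1 h))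
    · rw [if_neg hn] at h
      exact absurd h (Set.notMem_empty I)

include hq hdg in
theorem SA_insert [DecidableEq (Pr R)] (A : Finset (Pr R)) (P : Pr R) (hP : P ∉ A) (n : ℕ) :
    SA q (insert P A) n = SA q A n ∪
      (if dg P ≤ n then (fun J => P.1 * J) '' SA q (insert P A) (n - dg P) else ∅) := by
  ext I
  constructor
  · rintro ⟨h, hQ⟩
    by_cases hdiv : P.1 ∣ I
    · right
      obtain ⟨J, rfl⟩ := hdiv
      rw [card_mul, hdg] at h
      have hle : dg P ≤ n := by
        have : q ^ dg P ∣ q ^ n := Dvd.intro _ h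
        exact (Nat.pow_dvd_pow_iff_le_right hq).1 this
      rw [if_pos hle]
      refine ⟨J, ⟨?_, fun Q hQJ => hQ Q (hQJ.mul_left _)⟩, rfl⟩
      have hpos : 0 < q ^ dg P := pow_pos (by omega) _
      apply Nat.eq_of_mul_eq_mul_left hpos
      rw [h, ← pow_add]
      congr 1
      omega
    · left
      refine ⟨h, fun Q hQI => ?_⟩
      rcases Finset.mem_insert.1 (hQ Q hQI) with h | h
      · rw [h] at hQI
        exact absurd hQI hdiv
      · exact h
  · rintro (h | h)
    · exact ⟨h.1, fun Q hQ => Finset.mem_insert_of_mem (h.2 Q hQ)⟩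
    · split_ifs at h with hle
      · obtain ⟨J, ⟨hJ, hQ⟩, rfl⟩ := h
        refine ⟨?_, fun Q hQI => ?_⟩
        · show Nat.card (R ⧸ P.1 * J) = q ^ n
          rw [card_mul, hdg, hJ, ← pow_add]
          congr 1
          omega
        · rcases (Pr.prime Q).dvd_or_dvd hQI with h3 | h3
          · rw [Pr.eq_of_dvd h3]
            exact Finset.mem_insert_self _ _
          · exact hQ Q h3
      · exact absurd h (Set.notMem_empty I)

/-- the generating function -/
noncomputable def GA (q : ℕ) (A : Finset (Pr R)) : PowerSeries ℤ :=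
  PowerSeries.mk fun n => ((SA q A n).ncard : ℤ)

include hq in
theorem GA_empty : GA q (∅ : Finset (Pr R)) = 1 := by
  ext n
  rw [GA, coeff_mk, SA_empty hq, coeff_one]
  split_ifs with h
  · rw [Set.ncard_singleton, Nat.cast_one]
  · rw [Set.ncard_empty, Nat.cast_zero]

include hq h2 hdg in
theorem GA_insert [DecidableEq (Pr R)] (A : Finset (Pr R)) (P : Pr R) (hP : P ∉ A) :
    (1 - X ^ dg P) * GA q (insert P A) = GA q A := by
  ext n
  rw [sub_mul, one_mul, map_sub, coeff_X_pow_mul', GA, GA, coeff_mk, coeff_mk]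
  have hdisj : Disjoint (SA q A n) (if dg P ≤ n then
      (fun J => P.1 * J) '' SA q (insert P A) (n - dg P) else ∅) := by
    rw [Set.disjoint_left]
    intro I hI hI'
    split_ifs at hI' with hle
    · obtain ⟨J, _, rfl⟩ := hI'
      exact hP (hI.2 P (Dvd.intro _ rfl))
    · exact hI'
  have hfin : (if dg P ≤ n then
      (fun J => P.1 * J) '' SA q (insert P A) (n - dg P) else ∅ : Set (Ideal R)).Finite := by
    split_ifs
    · exact (SA_finite h2 _ _).image _
    · exact Set.finite_empty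
  rw [SA_insert hq hdg A P hP n, Set.ncard_union_eq hdisj (SA_finite h2 _ _) hfin]
  split_ifs with hle
  · rw [coeff_mk, Set.ncard_image_of_injective _ (mul_right_injective₀ (Pr.prime P).ne_zero)]
    push_cast
    ring
  · rw [Set.ncard_empty, coeff_mk]
    push_cast
    ring

include hq h2 hdg in
theorem prod_mul_GA (A : Finset (Pr R)) :
    (∏ P ∈ A, (1 - X ^ dg P : PowerSeries ℤ)) * GA q A = 1 := by
  classical
  induction A using Finset.induction_on with
  | empty => rw [Finset.prod_empty, one_mul, GA_empty hq]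
  | insert P A hP ih =>
    rw [Finset.prod_insert hP, mul_comm (1 - X ^ dg P : PowerSeries ℤ), mul_assoc,
      GA_insert hq h2 hdg A P hP, ih]

include h2 hdg in
omit [IsDedekindDomain R] [Infinite R] in
theorem dg_finite (n : ℕ) : {p : Pr R | dg p ≤ n}.Finite := by
  have h3 : (⋃ m ∈ Set.Iic n, {I : Ideal R | Nat.card (R ⧸ I) = q ^ m}).Finite :=
    Set.Finite.biUnion (Set.finite_Iic n) fun m _ => h2 m
  refine Set.Finite.of_finite_image (f := fun P : Pr R => P.1) (h3.subset ?_)
    (Set.injOn_of_injective Subtype.val_injective)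
  rintro _ ⟨P, hP, rfl⟩
  simp only [Set.mem_iUnion]
  exact ⟨dg P, hP, hdg P⟩

include hq h2 hdg in
/-- the Euler product over the nonzero prime ideals -/
theorem euler_ideals :
    eulerProd dg (fun p => (1 - X ^ dg p : PowerSeries ℤ)) *
      PowerSeries.mk (fun m => (Nat.card {I : Ideal R // Nat.card (R ⧸ I) = q ^ m} : ℤ)) = 1 := by
  apply eq_of_mod
  intro n
  have hf : ∀ P : Pr R, (X : PowerSeries ℤ) ^ dg P ∣ (1 - X ^ dg P) - 1 := by
    intro P
    rw [sub_right_comm, sub_self, zero_sub]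
    exact (dvd_neg).2 dvd_rfl
  have hfin := dg_finite h2 hdg
  have e1 := eulerProd_mod hfin hf n (hfin n).toFinset
    (fun P hP => by rw [Set.Finite.mem_toFinset]; exact hP)
  have e2 := prod_mul_GA hq h2 hdg (hfin n).toFinset
  have e3 : (X : PowerSeries ℤ) ^ (n + 1) ∣
      PowerSeries.mk (fun m => (Nat.card {I : Ideal R // Nat.card (R ⧸ I) = q ^ m} : ℤ)) -
        GA q (hfin n).toFinset := by
    rw [X_pow_dvd_iff]
    intro m hm
    rw [map_sub, coeff_mk, GA, coeff_mk]
    have : SA q (hfin n).toFinset m = {I : Ideal R | Nat.card (R ⧸ I) = q ^ m} := by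
      ext I
      refine ⟨fun h => h.1, fun h => ⟨h, fun P hP => ?_⟩⟩
      rw [Set.Finite.mem_toFinset]
      obtain ⟨J, rfl⟩ := hP
      have h' : Nat.card (R ⧸ P.1 * J) = q ^ m := h
      rw [card_mul, hdg] at h'
      have h3 : q ^ dg P ∣ q ^ m := Dvd.intro _ h'
      have h4 := (Nat.pow_dvd_pow_iff_le_right hq).1 h3
      show dg P ≤ n
      omega
    rw [this]
    rw [sub_eq_zero]
    rfl
  have := mul_congr_mod e1 e3
  rwa [e2] at this

end dedekind

end Pool.Agent.Y784.ZC
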