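import Pool.Agent.Y784.ZC.A
import Pool.Agent.Y784.FC.B
import Pool.Agent.Y711.Base

/-!
The ideals of the coordinate ring of `y ^ 2 = D(x)` over a finite field.
-/

set_option autoImplicit false
set_option maxHeartbeats 1000000

open Polynomial

namespace Pool.Agent.Y784.ZC

open Pool.Agent.W313.Hyp Pool.Agent.W343.BSD Pool.Agent.TH943.HJ Pool.Agent.Y711

section

variable {k : Type} [Field k] {D : k[X]}

theorem infinite_CR : Infinite (CR D) := Infinite.of_injective _ (pp_inj (F := D))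

/-- a nonzero ideal contains a nonzero polynomial -/
theorem exists_pp (hodd : Odd D.natDegree) {I : Ideal (CR D)} (hI : I ≠ ⊥) :
    ∃ f : k[X], f ≠ 0 ∧ (pp f : CR D) ∈ I := by
  have := isDomain hodd
  obtain ⟨z, hz, hz0⟩ := Submodule.exists_mem_ne_zero_of_ne_bot hI
  obtain ⟨p, q, rfl⟩ := exists_el z
  refine ⟨p ^ 2 - D * q ^ 2, ?_, ?_⟩
  · intro h
    obtain ⟨rfl, rfl⟩ := norm_ne hodd h
    apply hz0
    rw [el_left, map_zero]
  · rw [← el_mul_cj]
    exact I.mul_mem_right _ hz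

variable [Finite k]

theorem finite_pp {f : k[X]} (hf : f ≠ 0) : Finite (CR D ⧸ Ideal.span {(pp f : CR D)}) := by
  have hfin : Finite (degreeLT k f.natDegree) :=
    Finite.of_equiv _ (degreeLTEquiv k f.natDegree).symm.toEquiv
  refine Finite.of_surjective (α := degreeLT k f.natDegree × degreeLT k f.natDegree)
    (fun z => Ideal.Quotient.mk _ (el z.1.1 z.2.1 : CR D)) ?_
  intro w
  obtain ⟨z, rfl⟩ := Ideal.Quotient.mk_surjective w
  obtain ⟨p, q, rfl⟩ := exists_el z
  have hlt : ∀ g : k[X], g % f ∈ degreeLT k f.natDegree := by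
    intro g
    rw [mem_degreeLT, ← degree_eq_natDegree hf]
    exact EuclideanDomain.mod_lt g hf
  refine ⟨(⟨p % f, hlt p⟩, ⟨q % f, hlt q⟩), ?_⟩
  show Ideal.Quotient.mk _ (el (p % f) (q % f) : CR D) = _
  rw [Ideal.Quotient.eq, el_sub, Ideal.mem_span_singleton]
  have e : ∀ g : k[X], g % f - g = f * (-(g / f)) := by
    intro g
    have := EuclideanDomain.div_add_mod g f
    linear_combination this
  refine ⟨el (-(p / f)) (-(q / f)), ?_⟩
  rw [e, e, ← el_left, el_mul]
  congr 1 <;> ring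

theorem finite_quot (hodd : Odd D.natDegree) {I : Ideal (CR D)} (hI : I ≠ ⊥) :
    Finite (CR D ⧸ I) := by
  obtain ⟨f, hf, hfI⟩ := exists_pp hodd hI
  have := finite_pp (D := D) hf
  have hle : Ideal.span {(pp f : CR D)} ≤ I := by
    rw [Ideal.span_singleton_le_iff_mem]
    exact hfI
  exact Finite.of_surjective _ (Ideal.Quotient.factor_surjective hle)

theorem card_pow (hodd : Odd D.natDegree) {I : Ideal (CR D)} (hI : I ≠ ⊥) :
    ∃ m, Nat.card (CR D ⧸ I) = Nat.card k ^ m := by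
  have := finite_quot hodd hI
  have : Module.Finite k (CR D ⧸ I) := Module.Finite.of_finite
  exact ⟨_, Module.natCard_eq_pow_finrank (K := k) (V := CR D ⧸ I)⟩

theorem finite_ge {f : k[X]} (hf : f ≠ 0) : {I : Ideal (CR D) | (pp f : CR D) ∈ I}.Finite := by
  have := finite_pp (D := D) hf
  have h1 : Finite (Ideal (CR D ⧸ Ideal.span {(pp f : CR D)})) :=
    Finite.of_injective (β := Set (CR D ⧸ Ideal.span {(pp f : CR D)})) (fun J => (J : Set _))
      SetLike.coe_injective
  refine Set.Finite.of_finite_image (f := Ideal.map (Ideal.Quotient.mk (Ideal.span {(pp f : CR D)})))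
    (Set.toFinite _) ?_
  intro I hI J hJ h
  have hI' : Ideal.span {(pp f : CR D)} ≤ I := by
    rw [Ideal.span_singleton_le_iff_mem]
    exact hI
  have hJ' : Ideal.span {(pp f : CR D)} ≤ J := by
    rw [Ideal.span_singleton_le_iff_mem]
    exact hJ
  rw [← Ideal.comap_map_mk hI', ← Ideal.comap_map_mk hJ', h]

theorem finite_ideals (m : ℕ) :
    {I : Ideal (CR D) | Nat.card (CR D ⧸ I) = Nat.card k ^ m}.Finite := by
  have hfin : Finite (degreeLT k (m + 1)) := Finite.of_equiv _ (degreeLTEquiv k (m + 1)).symm.toEquiv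
  have hq : 1 < Nat.card k := Finite.one_lt_card
  have hcard : Nat.card (degreeLT k (m + 1)) = Nat.card k ^ (m + 1) := by
    rw [Nat.card_congr (degreeLTEquiv k (m + 1)).toEquiv, Nat.card_fun,
      Nat.card_eq_fintype_card (α := Fin (m + 1)), Fintype.card_fin]
  have hU : (⋃ f : degreeLT k (m + 1), {I : Ideal (CR D) | (pp f.1 : CR D) ∈ I ∧ f.1 ≠ 0}).Finite := by
    refine Set.finite_iUnion fun f => ?_
    by_cases h0 : f.1 = 0
    · convert! Set.finite_empty
      ext I
      simp [h0]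
    · exact (finite_ge h0).subset fun I hI => hI.1
  refine hU.subset ?_
  intro I hI
  have hI' : Nat.card (CR D ⧸ I) = Nat.card k ^ m := hI
  have : Finite (CR D ⧸ I) := by
    apply Nat.finite_of_card_ne_zero
    rw [hI']
    exact pow_ne_zero _ (by omega)
  rw [Set.mem_iUnion]
  have hni : ¬ Function.Injective (fun f : degreeLT k (m + 1) =>
      (Ideal.Quotient.mk I (pp f.1 : CR D))) := by
    intro h
    have h3 := Nat.card_le_card_of_injective _ h
    rw [hcard, hI'] at h3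
    exact absurd h3 (not_le.2 (Nat.pow_lt_pow_right hq (Nat.lt_succ_self m)))
  rw [Function.not_injective_iff] at hni
  obtain ⟨f, g, hfg, hne⟩ := hni
  refine ⟨f - g, ?_, ?_⟩
  · have h4 : Ideal.Quotient.mk I (pp f.1 : CR D) = Ideal.Quotient.mk I (pp g.1 : CR D) := hfg
    rw [Ideal.Quotient.eq, ← map_sub] at h4
    exact h4
  · intro h
    apply hne
    apply Subtype.ext
    have h5 : f.1 - g.1 = 0 := h
    exact sub_eq_zero.1 h5

end

section primes

variable {k : Type} [Field k] {D : k[X]}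

/-- the closed point of the line below a prime ideal -/
theorem exists_below (hodd : Odd D.natDegree) (p : Pr (CR D)) :
    ∃ P : MI k, (pp P.1 : CR D) ∈ p.1 := by
  obtain ⟨f, hf, hfp⟩ := exists_pp hodd p.2.2
  have hp := p.2.1
  let J : Ideal k[X] := p.1.comap (pp : k[X] →+* CR D)
  have hJp : J.IsPrime := Ideal.comap_isPrime _ _
  have hJ0 : J ≠ ⊥ := by
    intro h
    have : f ∈ J := hfp
    rw [h] at this
    exact hf this
  have hg := Submodule.IsPrincipal.prime_generator_of_isPrime J hJ0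
  obtain ⟨P, hPm, hPi, hPd⟩ := Polynomial.exists_monic_irreducible_factor _ hg.not_isUnit
  refine ⟨⟨P, hPm, hPi⟩, ?_⟩
  have h1 : Submodule.IsPrincipal.generator J ∣ P :=
    (hPi.associated_of_dvd hg.irreducible hPd).symm.dvd
  obtain ⟨u, hu⟩ := h1
  have h2 : P ∈ J := by
    rw [hu]
    exact J.mul_mem_right _ (Submodule.IsPrincipal.generator_mem J)
  exact h2

theorem below_unique (p : Pr (CR D)) {P Q : MI k} (hP : (pp P.1 : CR D) ∈ p.1)
    (hQ : (pp Q.1 : CR D) ∈ p.1) : P = Q := by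
  by_contra hne
  have h1 : IsCoprime P.1 Q.1 := by
    rw [P.2.2.coprime_iff_not_dvd]
    exact fun hd => hne (eq_of_dvd_MI hd)
  obtain ⟨a, b, hab⟩ := h1
  apply p.2.1.ne_top
  rw [Ideal.eq_top_iff_one]
  have h2 : (1 : CR D) = pp a * pp P.1 + pp b * pp Q.1 := by
    rw [← map_mul, ← map_mul, ← map_add, hab, map_one]
  rw [h2]
  exact p.1.add_mem (p.1.mul_mem_left _ hP) (p.1.mul_mem_left _ hQ)

open Pool.Agent.Y784.FC (RF factMI finRF)

/-- the reduction `y ↦ s` -/
noncomputable def ev {P : MI k} {s : k[X]} (h : P.1 ∣ D - s ^ 2) : CR D →+* RF P :=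
  AdjoinRoot.lift (AdjoinRoot.mk P.1) (AdjoinRoot.mk P.1 s) (by
    rw [eval₂_sub, eval₂_pow, eval₂_X, eval₂_C, ← map_pow, ← map_sub, AdjoinRoot.mk_eq_zero]
    have : s ^ 2 - D = -(D - s ^ 2) := by ring
    rw [this]
    exact (dvd_neg).2 h)

theorem ev_pp {P : MI k} {s : k[X]} (h : P.1 ∣ D - s ^ 2) (a : k[X]) :
    ev h (pp a) = AdjoinRoot.mk P.1 a := AdjoinRoot.lift_of _

theorem ev_yy {P : MI k} {s : k[X]} (h : P.1 ∣ D - s ^ 2) :
    ev h (yy D) = AdjoinRoot.mk P.1 s := AdjoinRoot.lift_root _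

theorem ev_surj {P : MI k} {s : k[X]} (h : P.1 ∣ D - s ^ 2) : Function.Surjective (ev h) := by
  intro w
  obtain ⟨a, rfl⟩ := AdjoinRoot.mk_surjective w
  exact ⟨pp a, ev_pp h a⟩

/-- the prime `(P, y - s)` -/
noncomputable def ps {P : MI k} {s : k[X]} (h : P.1 ∣ D - s ^ 2) : Pr (CR D) :=
  ⟨RingHom.ker (ev h), RingHom.ker_isPrime _, by
    intro h0
    have h1 : (pp P.1 : CR D) ∈ RingHom.ker (ev h) := by
      rw [RingHom.mem_ker, ev_pp, AdjoinRoot.mk_self]
    rw [h0] at h1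
    have h2 : (pp P.1 : CR D) = 0 := h1
    rw [← map_zero pp] at h2
    exact P.2.2.ne_zero (pp_inj h2)⟩

theorem ps_le {P : MI k} {s : k[X]} (h : P.1 ∣ D - s ^ 2) {p : Ideal (CR D)}
    (hp : (pp P.1 : CR D) ∈ p) (hs : yy D - pp s ∈ p) : (ps h).1 ≤ p := by
  intro z hz
  obtain ⟨a, b, rfl⟩ := exists_el z
  have h1 : ev h (el a b) = 0 := hz
  unfold el at h1
  rw [map_add, map_mul, ev_pp, ev_pp, ev_yy, ← map_mul, ← map_add, AdjoinRoot.mk_eq_zero] at h1
  obtain ⟨c, hc⟩ := h1
  have h2 : (el a b : CR D) = pp c * pp P.1 + pp b * (yy D - pp s) := by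
    unfold el
    rw [← map_mul, mul_comm c, ← hc, map_add, map_mul]
    ring
  rw [h2]
  exact p.add_mem (p.mul_mem_left _ hp) (p.mul_mem_left _ hs)

theorem ps_max {P : MI k} {s : k[X]} (h : P.1 ∣ D - s ^ 2) : (ps h).1.IsMaximal :=
  RingHom.ker_isMaximal_of_surjective _ (ev_surj h)

theorem neg_dvd {P : MI k} {s : k[X]} (h : P.1 ∣ D - s ^ 2) : P.1 ∣ D - (-s) ^ 2 := by
  rw [neg_sq]
  exact h

theorem mem_split {P : MI k} {s : k[X]} (h : P.1 ∣ D - s ^ 2) (p : Pr (CR D)) :
    (pp P.1 : CR D) ∈ p.1 ↔ p = ps h ∨ p = ps (neg_dvd h) := by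
  constructor
  · intro hp
    have h1 : (yy D - pp s) * (yy D - pp (-s)) ∈ p.1 := by
      have e : (yy D - pp s) * (yy D - pp (-s)) = pp (D - s ^ 2) := by
        rw [map_neg, map_sub, map_pow, ← yy_sq]
        ring
      rw [e]
      obtain ⟨c, hc⟩ := h
      rw [hc, map_mul]
      exact p.1.mul_mem_right _ hp
    rcases p.2.1.mem_or_mem h1 with h2 | h2
    · left
      apply Subtype.ext
      exact ((ps_max h).eq_of_le p.2.1.ne_top (ps_le h hp h2)).symm
    · right
      apply Subtype.ext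
      exact ((ps_max (neg_dvd h)).eq_of_le p.2.1.ne_top (ps_le (neg_dvd h) hp h2)).symm
  · rintro (rfl | rfl) <;>
    · show (pp P.1 : CR D) ∈ RingHom.ker _
      rw [RingHom.mem_ker, ev_pp, AdjoinRoot.mk_self]

theorem ps_eq_iff (h2 : (2 : k) ≠ 0) {P : MI k} {s : k[X]} (h : P.1 ∣ D - s ^ 2) :
    ps h = ps (neg_dvd h) ↔ P.1 ∣ D := by
  have hs : P.1 ∣ D ↔ P.1 ∣ s := by
    constructor
    · intro hD
      have h3 : P.1 ∣ s ^ 2 := by
        have := dvd_sub hD h
        rwa [sub_sub_cancel] at this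
      exact P.2.2.prime.dvd_of_dvd_pow h3
    · intro h3
      have := dvd_add h (h3.trans (dvd_pow_self s (two_ne_zero)))
      rwa [sub_add_cancel] at this
  rw [hs]
  constructor
  · intro he
    have h3 : yy D - pp s ∈ (ps h).1 := by
      show _ ∈ RingHom.ker _
      rw [RingHom.mem_ker, map_sub, ev_yy, ev_pp, sub_self]
    rw [he] at h3
    have h4 : ev (neg_dvd h) (yy D - pp s) = 0 := h3
    rw [map_sub, ev_yy, ev_pp, ← map_sub, AdjoinRoot.mk_eq_zero] at h4
    have h5 : P.1 ∣ C (2 : k) * s := by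
      have e : C (2 : k) * s = -(-s - s) := by
        rw [map_ofNat]
        ring
      rw [e]
      exact (dvd_neg).2 h4
    exact (isUnit_C.2 (isUnit_iff_ne_zero.2 h2)).dvd_mul_left.1 h5
  · intro h3
    have h4 : yy D - pp (-s) ∈ (ps h).1 := by
      show _ ∈ RingHom.ker _
      rw [RingHom.mem_ker, map_sub, ev_yy, ev_pp, ← map_sub, AdjoinRoot.mk_eq_zero]
      have e : s - -s = s + s := by ring
      rw [e]
      exact dvd_add h3 h3
    have h5 : (pp P.1 : CR D) ∈ (ps h).1 := by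
      show _ ∈ RingHom.ker _
      rw [RingHom.mem_ker, ev_pp, AdjoinRoot.mk_self]
    apply Subtype.ext
    exact ((ps_max (neg_dvd h)).eq_of_le (ps h).2.1.ne_top (ps_le (neg_dvd h) h5 h4)).symm

theorem card_ps [Finite k] {P : MI k} {s : k[X]} (h : P.1 ∣ D - s ^ 2) :
    Nat.card (CR D ⧸ (ps h).1) = Nat.card k ^ P.1.natDegree := by
  have e := (RingHom.quotientKerEquivOfSurjective (ev_surj h)).toEquiv
  have h1 : Nat.card (CR D ⧸ (ps h).1) = Nat.card (RF P) := Nat.card_congr e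
  have : Module.Finite k (RF P) := P.2.1.finite_adjoinRoot
  rw [h1, Module.natCard_eq_pow_finrank (K := k) (V := RF P), Pool.Agent.Y784.FC.finrank_RF]

end primes

end Pool.Agent.Y784.ZC
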