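import Pool.Agent.Y784.ZC.B

/-!
The Dedekind zeta function of the coordinate ring of `y ^ 2 = D(x)` over a finite field.
-/

set_option autoImplicit false
set_option maxHeartbeats 1000000

open Polynomial

namespace Pool.Agent.Y784.ZC

open Pool.Agent.W313.Hyp Pool.Agent.W343.BSD Pool.Agent.TH943.HJ Pool.Agent.Y711

section inert

variable {k : Type} [Field k] {D : k[X]}

open Pool.Agent.Y784.FC (RF factMI finRF)

/-- the polynomial `Y ^ 2 - D` over the residue field -/
noncomputable def qp (D : k[X]) (P : MI k) : (RF P)[X] := X ^ 2 - C (AdjoinRoot.mk P.1 D)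

theorem qp_monic (P : MI k) : (qp D P).Monic := monic_X_pow_sub_C _ two_ne_zero

theorem qp_deg (P : MI k) : (qp D P).natDegree = 2 := natDegree_X_pow_sub_C

theorem qp_irr {P : MI k} (h : ¬ ∃ s : k[X], P.1 ∣ D - s ^ 2) : Irreducible (qp D P) := by
  rw [(qp_monic P).irreducible_iff_roots_eq_zero_of_degree_le_three (by rw [qp_deg])
    (by rw [qp_deg]; norm_num)]
  rw [Multiset.eq_zero_iff_forall_notMem]
  intro t ht
  rw [mem_roots'] at ht
  apply h
  obtain ⟨s, rfl⟩ := AdjoinRoot.mk_surjective t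
  refine ⟨s, ?_⟩
  have h1 := ht.2
  rw [IsRoot, qp, eval_sub, eval_pow, eval_X, eval_C, ← map_pow, ← map_sub,
    AdjoinRoot.mk_eq_zero] at h1
  have : D - s ^ 2 = -(s ^ 2 - D) := by ring
  rw [this]
  exact (dvd_neg).2 h1

/-- the reduction -/
noncomputable def ev2 (D : k[X]) (P : MI k) : CR D →+* AdjoinRoot (qp D P) :=
  AdjoinRoot.lift ((AdjoinRoot.of (qp D P)).comp (AdjoinRoot.mk P.1)) (AdjoinRoot.root (qp D P)) (by
    rw [eval₂_sub, eval₂_pow, eval₂_X, eval₂_C, RingHom.comp_apply]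
    have h : (qp D P).eval₂ (AdjoinRoot.of (qp D P)) (AdjoinRoot.root (qp D P)) = 0 :=
      AdjoinRoot.eval₂_root _
    rw [qp, eval₂_sub, eval₂_pow, eval₂_X, eval₂_C] at h
    exact h)

theorem ev2_pp (P : MI k) (a : k[X]) :
    ev2 D P (pp a) = AdjoinRoot.of (qp D P) (AdjoinRoot.mk P.1 a) := AdjoinRoot.lift_of _

theorem ev2_yy (P : MI k) : ev2 D P (yy D) = AdjoinRoot.root (qp D P) := AdjoinRoot.lift_root _

theorem ev2_el (P : MI k) (a b : k[X]) : ev2 D P (el a b) =
    AdjoinRoot.mk (qp D P) (C (AdjoinRoot.mk P.1 a) + C (AdjoinRoot.mk P.1 b) * X) := by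
  unfold el
  rw [map_add, map_mul, ev2_pp, ev2_pp, ev2_yy, map_add, map_mul, AdjoinRoot.mk_C, AdjoinRoot.mk_C,
    AdjoinRoot.mk_X]

theorem ev2_surj (P : MI k) : Function.Surjective (ev2 D P) := by
  intro w
  obtain ⟨g, rfl⟩ := AdjoinRoot.mk_surjective w
  have h1 : AdjoinRoot.mk (qp D P) g = AdjoinRoot.mk (qp D P) (g %ₘ (qp D P)) := by
    rw [AdjoinRoot.mk_eq_mk]
    have h := modByMonic_add_div g (qp D P)
    exact ⟨g /ₘ (qp D P), by linear_combination -h⟩
  have h2 : (g %ₘ (qp D P)).degree < 2 := by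
    have := degree_modByMonic_lt g (qp_monic (D := D) P)
    rwa [degree_eq_natDegree (qp_monic P).ne_zero, qp_deg] at this
  have h3 := as_sum_range_C_mul_X_pow' (p := g %ₘ (qp D P)) (n := 2) (by
    rcases eq_or_ne (g %ₘ (qp D P)) 0 with h0 | h0
    · rw [h0, natDegree_zero]; norm_num
    · exact (natDegree_lt_iff_degree_lt h0).2 h2)
  rw [Finset.sum_range_succ, Finset.sum_range_one, pow_zero, mul_one, pow_one] at h3
  obtain ⟨a, ha⟩ := AdjoinRoot.mk_surjective ((g %ₘ (qp D P)).coeff 0)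
  obtain ⟨b, hb⟩ := AdjoinRoot.mk_surjective ((g %ₘ (qp D P)).coeff 1)
  refine ⟨el a b, ?_⟩
  rw [ev2_el, ha, hb, h1, ← h3]

theorem ev2_ker (P : MI k) {a b : k[X]} (h : ev2 D P (el a b) = 0) : P.1 ∣ a ∧ P.1 ∣ b := by
  rw [ev2_el, AdjoinRoot.mk_eq_zero] at h
  have h1 : (C (AdjoinRoot.mk P.1 a) + C (AdjoinRoot.mk P.1 b) * X : (RF P)[X]) = 0 := by
    by_contra hne
    have h2 := natDegree_le_of_dvd h hne
    rw [qp_deg] at h2
    have h3 : (C (AdjoinRoot.mk P.1 a) + C (AdjoinRoot.mk P.1 b) * X : (RF P)[X]).natDegree ≤ 1 := by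
      refine (natDegree_add_le _ _).trans (max_le ?_ ?_)
      · rw [natDegree_C]; exact Nat.zero_le _
      · exact (natDegree_C_mul_le _ _).trans natDegree_X_le
    omega
  have e0 := congrArg (fun r => coeff r 0) h1
  have e1 := congrArg (fun r => coeff r 1) h1
  simp at e0 e1
  exact ⟨e0, e1⟩

/-- the inert prime -/
noncomputable def pin {P : MI k} (h : ¬ ∃ s : k[X], P.1 ∣ D - s ^ 2) : Pr (CR D) :=
  ⟨RingHom.ker (ev2 D P), by
    have : Fact (Irreducible (qp D P)) := ⟨qp_irr h⟩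
    exact RingHom.ker_isPrime _, by
    intro h0
    have h1 : (pp P.1 : CR D) ∈ RingHom.ker (ev2 D P) := by
      rw [RingHom.mem_ker, ev2_pp, AdjoinRoot.mk_self, map_zero]
    rw [h0] at h1
    have h2 : (pp P.1 : CR D) = 0 := h1
    rw [← map_zero pp] at h2
    exact P.2.2.ne_zero (pp_inj h2)⟩

theorem mem_inert {P : MI k} (h : ¬ ∃ s : k[X], P.1 ∣ D - s ^ 2) (p : Pr (CR D)) :
    (pp P.1 : CR D) ∈ p.1 ↔ p = pin h := by
  have : Fact (Irreducible (qp D P)) := ⟨qp_irr h⟩
  constructor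
  · intro hp
    have hmax : (RingHom.ker (ev2 D P)).IsMaximal :=
      RingHom.ker_isMaximal_of_surjective _ (ev2_surj P)
    apply Subtype.ext
    refine (hmax.eq_of_le p.2.1.ne_top ?_).symm
    intro z hz
    obtain ⟨a, b, rfl⟩ := exists_el z
    obtain ⟨⟨a', rfl⟩, ⟨b', rfl⟩⟩ := ev2_ker P hz
    have e : (el (P.1 * a') (P.1 * b') : CR D) = pp P.1 * el a' b' := by
      rw [← el_left, el_mul]
      congr 1 <;> ring
    rw [e]
    exact p.1.mul_mem_right _ hp
  · rintro rfl
    show (pp P.1 : CR D) ∈ RingHom.ker _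
    rw [RingHom.mem_ker, ev2_pp, AdjoinRoot.mk_self, map_zero]

theorem card_pin [Finite k] {P : MI k} (h : ¬ ∃ s : k[X], P.1 ∣ D - s ^ 2) :
    Nat.card (CR D ⧸ (pin h).1) = Nat.card k ^ (2 * P.1.natDegree) := by
  have : Fact (Irreducible (qp D P)) := ⟨qp_irr h⟩
  have e := (RingHom.quotientKerEquivOfSurjective (ev2_surj (D := D) P)).toEquiv
  have h1 : Nat.card (CR D ⧸ (pin h).1) = Nat.card (AdjoinRoot (qp D P)) := Nat.card_congr e
  have : Module.Finite k (RF P) := P.2.1.finite_adjoinRoot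
  have : Module.Finite (RF P) (AdjoinRoot (qp D P)) := (qp_monic P).finite_adjoinRoot
  have h2 : Module.finrank (RF P) (AdjoinRoot (qp D P)) = 2 := by
    rw [(AdjoinRoot.powerBasis (qp_irr h).ne_zero).finrank, AdjoinRoot.powerBasis_dim, qp_deg]
  rw [h1, Module.natCard_eq_pow_finrank (K := RF P) (V := AdjoinRoot (qp D P)), h2,
    Module.natCard_eq_pow_finrank (K := k) (V := RF P), Pool.Agent.Y784.FC.finrank_RF, ← pow_mul]
  congr 1
  ring

end inert

theorem zeta_CR {k : Type} [Field k] [Finite k] (h2 : (2 : k) ≠ 0) {D : k[X]} (hm : D.Monic)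
    (hodd : Odd D.natDegree) (hsq : Squarefree D) :
    (∀ m : ℕ, {I : Ideal (CR D) | Nat.card (CR D ⧸ I) = Nat.card k ^ m}.Finite) ∧
    eulerProd (fun P : MI k => P.1.natDegree) (fun P =>
      ((1 - PowerSeries.X ^ P.1.natDegree) *
        (1 - PowerSeries.C (chi D P.1) * PowerSeries.X ^ P.1.natDegree) : PowerSeries ℤ)) *
      PowerSeries.mk (fun m => (Nat.card {I : Ideal (CR D) // Nat.card (CR D ⧸ I) = Nat.card k ^ m} : ℤ)) = 1 := by
  classical
  refine ⟨fun m => finite_ideals m, ?_⟩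
  have hD0 : D ≠ 0 := hsq.ne_zero
  have := isDomain hodd
  have : IsDedekindDomain (CR D) := dedekind h2 hodd hsq
  have : Infinite (CR D) := infinite_CR
  have hq : 1 < Nat.card k := Finite.one_lt_card
  have hex : ∀ p : Pr (CR D), ∃ m, Nat.card (CR D ⧸ p.1) = Nat.card k ^ m :=
    fun p => card_pow hodd p.2.2
  choose dg hdg using hex
  have key := euler_ideals hq (fun m => finite_ideals (D := D) m) hdg
  have hfin := dg_finite (fun m => finite_ideals (D := D) m) hdg
  have hdeg : ∀ (p : Pr (CR D)) (m : ℕ), Nat.card (CR D ⧸ p.1) = Nat.card k ^ m → dg p = m := by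
    intro p m h
    rw [hdg] at h
    exact Nat.pow_right_injective hq h
  -- the primes above `P`
  have hSfin : ∀ P : MI k, {p : Pr (CR D) | (pp P.1 : CR D) ∈ p.1}.Finite := by
    intro P
    exact Set.Finite.of_finite_image (f := fun p : Pr (CR D) => p.1)
      ((finite_ge (D := D) P.2.2.ne_zero).subset (by rintro _ ⟨p, hp, rfl⟩; exact hp))
      (Set.injOn_of_injective Subtype.val_injective)
  set S : MI k → Finset (Pr (CR D)) := fun P => (hSfin P).toFinset with hS
  have hmem : ∀ (P : MI k) (p : Pr (CR D)), p ∈ S P ↔ (pp P.1 : CR D) ∈ p.1 := by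
    intro P p
    simp only [hS, Set.Finite.mem_toFinset]
    rfl
  have hdle : ∀ P : MI k, ∀ p ∈ S P, P.1.natDegree ≤ dg p := by
    intro P p hp
    rw [hmem] at hp
    by_cases h : ∃ s : k[X], P.1 ∣ D - s ^ 2
    · obtain ⟨s, hs⟩ := h
      rcases (mem_split hs p).1 hp with h | h
      · rw [hdeg p _ (by rw [h]; exact card_ps hs)]
      · rw [hdeg p _ (by rw [h]; exact card_ps (neg_dvd hs))]
    · rw [hdeg p (2 * P.1.natDegree) (by rw [(mem_inert h p).1 hp]; exact card_pin h)]
      omega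
  have hloc : ∀ P : MI k, ∏ p ∈ S P, (1 - PowerSeries.X ^ dg p : PowerSeries ℤ) =
      (1 - PowerSeries.X ^ P.1.natDegree) *
        (1 - PowerSeries.C (chi D P.1) * PowerSeries.X ^ P.1.natDegree) := by
    intro P
    by_cases h : ∃ s : k[X], P.1 ∣ D - s ^ 2
    · obtain ⟨s, hs⟩ := h
      have d1 : dg (ps hs) = P.1.natDegree := hdeg _ _ (card_ps hs)
      have d2 : dg (ps (neg_dvd hs)) = P.1.natDegree := hdeg _ _ (card_ps (neg_dvd hs))
      have hSP : S P = {ps hs, ps (neg_dvd hs)} := by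
        ext p
        rw [hmem, mem_split hs, Finset.mem_insert, Finset.mem_singleton]
      by_cases hPD : P.1 ∣ D
      · have he := (ps_eq_iff h2 hs).2 hPD
        have hchi : chi D P.1 = 0 := by
          unfold chi
          rw [if_pos hPD]
        rw [hSP, ← he, Finset.pair_eq_singleton, Finset.prod_singleton, d1, hchi, map_zero]
        ring
      · have he : ps hs ≠ ps (neg_dvd hs) := fun h => hPD ((ps_eq_iff h2 hs).1 h)
        have hchi : chi D P.1 = 1 := by
          unfold chi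
          rw [if_neg hPD, if_pos ⟨s, hs⟩]
        rw [hSP, Finset.prod_pair he, d1, d2, hchi, map_one]
        ring
    · have hSP : S P = {pin h} := by
        ext p
        rw [hmem, mem_inert h, Finset.mem_singleton]
      have hchi : chi D P.1 = -1 := by
        unfold chi
        rw [if_neg, if_neg h]
        intro hPD
        exact h ⟨0, by simpa using hPD⟩
      rw [hSP, Finset.prod_singleton, hdeg _ _ (card_pin h), hchi, map_neg, map_one]
      rw [pow_mul']
      ring
  have hmod : ∀ p : Pr (CR D), (PowerSeries.X : PowerSeries ℤ) ^ dg p ∣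
      (1 - PowerSeries.X ^ dg p) - 1 := by
    intro p
    rw [sub_right_comm, sub_self, zero_sub]
    exact (dvd_neg).2 dvd_rfl
  have hfib := eulerProd_fiber (d := fun P : MI k => P.1.natDegree) (d' := dg)
    (fun n => finite_deg_le (F := k) n) hfin
    (f' := fun p => (1 - PowerSeries.X ^ dg p : PowerSeries ℤ)) hmod S
    (fun p => by
      obtain ⟨P, hP⟩ := exists_below hodd p
      exact ⟨P, (hmem P p).2 hP⟩)
    (fun P Q p hp hq => below_unique p ((hmem P p).1 hp) ((hmem Q p).1 hq)) hdle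
  have hfun : (fun P : MI k => ((1 - PowerSeries.X ^ P.1.natDegree) *
        (1 - PowerSeries.C (chi D P.1) * PowerSeries.X ^ P.1.natDegree) : PowerSeries ℤ)) =
      fun P => ∏ p ∈ S P, (1 - PowerSeries.X ^ dg p : PowerSeries ℤ) :=
    funext fun P => (hloc P).symm
  rw [hfun, hfib]
  exact key

end Pool.Agent.Y784.ZC
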